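import Mathlib

namespace Pool.Agent.Results.MP_6750b5_co.NotNested

open Finset

/-- The multinomial coefficient `k! / (m_1! ⋯ m_n!)` of the multiplicities of the tuple `i`. -/
noncomputable def multi {n k : ℕ} (i : Fin k → Fin n) : ℝ :=
  (k.factorial : ℝ) / ∏ l : Fin n, (((univ.filter fun t => i t = l).card).factorial : ℝ)

/-- All rearrangements of the tuple `i`. -/
def orb {n k : ℕ} (i : Fin k → Fin n) : Finset (Fin k → Fin n) :=
  univ.image fun σ : Equiv.Perm (Fin k) => i ∘ σ

/-- The vertices of the `k`-th symmetric tensor power: nondecreasing tuples. -/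
def Vert (n k : ℕ) : Type := {i : Fin k → Fin n // Monotone i}

/-- The edge weights of the `k`-th symmetric tensor power of the graph with adjacency `adj`. -/
noncomputable def weight {n : ℕ} (adj : Fin n → Fin n → Bool) (k : ℕ) (i j : Vert n k) : ℝ :=
  (multi i.1 * multi j.1) ^ (-(1 / 2 : ℝ)) *
    ∑ p ∈ orb i.1, ∑ q ∈ orb j.1, ∏ l : Fin k, (if adj (p l) (q l) then (1 : ℝ) else 0)

lemma multi_pos {n k : ℕ} (i : Fin k → Fin n) : 0 < multi i := by
  unfold multi; positivity

lemma noloop : ∀ i : Fin 3 → Fin 2, ∀ p ∈ orb i, ∀ q ∈ orb i, ∃ l, p l = q l := by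
  decide +kernel

theorem result : ∃ (n : ℕ) (adj : Fin n → Fin n → Bool) (k r : ℕ),
    (∀ a b, adj a b = adj b a) ∧ 1 ≤ k ∧ k < r ∧
      ¬ ∃ φ : Vert n k → Vert n r, Function.Injective φ ∧
        ∀ i j, weight adj k i j ≤ weight adj r (φ i) (φ j) := by
  refine ⟨2, fun a b => decide (a ≠ b), 2, 3, by decide, by norm_num, by norm_num, ?_⟩
  rintro ⟨φ, -, H⟩
  let v : Vert 2 2 := ⟨id, monotone_id⟩
  have h := H v v
  have z : weight (fun a b : Fin 2 => decide (a ≠ b)) 3 (φ v) (φ v) = 0 := by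
    unfold weight
    rw [Finset.sum_eq_zero, mul_zero]
    intro p hp
    refine Finset.sum_eq_zero fun q hq => ?_
    obtain ⟨l, hl⟩ := noloop _ p hp q hq
    exact Finset.prod_eq_zero (mem_univ l) (by simp [hl])
  have pos : 0 < weight (fun a b : Fin 2 => decide (a ≠ b)) 2 v v := by
    unfold weight
    refine mul_pos (Real.rpow_pos_of_pos (mul_pos (multi_pos _) (multi_pos _)) _) ?_
    have nn : ∀ p q : Fin 2 → Fin 2,
        0 ≤ ∏ l : Fin 2, (if decide (p l ≠ q l) then (1 : ℝ) else 0) := fun p q =>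
      Finset.prod_nonneg fun l _ => by split_ifs <;> norm_num
    refine Finset.sum_pos' (fun p _ => Finset.sum_nonneg fun q _ => nn p q) ⟨![0, 1], by decide, ?_⟩
    refine Finset.sum_pos' (fun q _ => nn _ q) ⟨![1, 0], by decide, ?_⟩
    simp [Fin.prod_univ_two]
  linarith

end Pool.Agent.Results.MP_6750b5_co.NotNested
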